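import Pool.Agent.helper69.AD.GS6
import Pool.Agent.helper73.AD.Basic

set_option autoImplicit false

open scoped MatrixGroups LinearAlgebra.Projectivization
open Matrix UpperHalfPlane
open Pool.Agent.helper73.AD (PS Arc Word sg AData Family PreFamily Cone bs lc ls hs KD_stmt GS_stmt
  BF_stmt isOpen_Cone Cone_mem_nhds)

namespace AdSBend

lemma XB1_cosh (x y : ℝ) : Real.cosh y ≤ Real.exp |y - x| * Real.cosh x := by
  have h : y = x + (y - x) := by ring
  rw [h, Real.cosh_add]
  simp only [add_sub_cancel_left]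
  set d := y - x
  have h1 : Real.exp |d| = Real.cosh d + |Real.sinh d| := by
    rcases le_total 0 d with hd | hd
    · rw [abs_of_nonneg hd, abs_of_nonneg (Real.sinh_nonneg_iff.2 hd), Real.cosh_add_sinh]
    · rw [abs_of_nonpos hd, abs_of_nonpos (Real.sinh_nonpos_iff.2 hd), ← sub_eq_add_neg,
        Real.cosh_sub_sinh]
  rw [h1]
  have h2 : |Real.sinh x| ≤ Real.cosh x := by
    rw [abs_le]
    constructor
    · have := Real.cosh_add_sinh x
      have := Real.exp_pos x
      linarith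
    · exact (Real.sinh_lt_cosh x).le
  have h3 : Real.sinh x * Real.sinh d ≤ Real.cosh x * |Real.sinh d| := by
    calc Real.sinh x * Real.sinh d ≤ |Real.sinh x * Real.sinh d| := le_abs_self _
      _ = |Real.sinh x| * |Real.sinh d| := abs_mul _ _
      _ ≤ _ := mul_le_mul_of_nonneg_right h2 (abs_nonneg _)
  nlinarith

lemma XB1_lc (x y : ℝ) : lc y ≤ lc x + |y - x| := by
  unfold lc
  have h1 := XB1_cosh x y
  have h2 := Real.cosh_pos x
  have h3 := Real.log_le_log (Real.cosh_pos y) h1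
  rw [Real.log_mul (Real.exp_pos _).ne' h2.ne', Real.log_exp] at h3
  linarith

lemma XB1_ls {x y : ℝ} (hx : 0 < x) (hxy : x ≤ y) : ls x ≤ ls y := by
  unfold ls
  exact Real.log_le_log (Real.sinh_pos_iff.2 hx) (Real.sinh_le_sinh.2 hxy)

lemma XB1_lc' {x y s : ℝ} (h1 : y - x ≤ s) (h2 : -s ≤ y - x) : lc y ≤ lc x + s := by
  have := XB1_lc x y
  have h3 : |y - x| ≤ s := abs_le.2 ⟨h2, h1⟩
  linarith

lemma XB1_wave {b c a b' c' a' s : ℝ} (hs0 : 0 ≤ s) (hb : |b' - b| ≤ s / 2) (hc : |c' - c| ≤ s / 2)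
    (ha : a' ≤ a + s / 2) :
    Real.log (Real.cosh b' * Real.exp a' + Real.cosh c') ≤
      Real.log (Real.cosh b * Real.exp a + Real.cosh c) + s := by
  have hpos : 0 < Real.cosh b * Real.exp a + Real.cosh c := by
    have := Real.cosh_pos b
    have := Real.cosh_pos c
    positivity
  have hpos' : 0 < Real.cosh b' * Real.exp a' + Real.cosh c' := by
    have := Real.cosh_pos b'
    have := Real.cosh_pos c'
    positivity
  have h1 : Real.cosh b' ≤ Real.exp (s / 2) * Real.cosh b :=
    (XB1_cosh b b').trans (mul_le_mul_of_nonneg_right (Real.exp_le_exp.2 hb) (Real.cosh_pos _).le)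
  have h2 : Real.cosh c' ≤ Real.exp (s / 2) * Real.cosh c :=
    (XB1_cosh c c').trans (mul_le_mul_of_nonneg_right (Real.exp_le_exp.2 hc) (Real.cosh_pos _).le)
  have h3 : Real.exp a' ≤ Real.exp (s / 2) * Real.exp a := by
    rw [← Real.exp_add]; exact Real.exp_le_exp.2 (by linarith)
  have h4 : Real.exp (s / 2) ≤ Real.exp s := Real.exp_le_exp.2 (by linarith)
  have h5 : Real.exp (s / 2) * Real.exp (s / 2) = Real.exp s := by
    rw [← Real.exp_add]; congr 1; ring
  have h6 : Real.cosh b' * Real.exp a' ≤ Real.exp s * (Real.cosh b * Real.exp a) := by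
    calc Real.cosh b' * Real.exp a' ≤ (Real.exp (s / 2) * Real.cosh b) *
          (Real.exp (s / 2) * Real.exp a) :=
          mul_le_mul h1 h3 (Real.exp_pos _).le
            (mul_nonneg (Real.exp_pos _).le (Real.cosh_pos _).le)
      _ = Real.exp s * (Real.cosh b * Real.exp a) := by rw [← h5]; ring
  have h7 : Real.cosh c' ≤ Real.exp s * Real.cosh c :=
    h2.trans (mul_le_mul_of_nonneg_right h4 (Real.cosh_pos _).le)
  have h8 : Real.cosh b' * Real.exp a' + Real.cosh c' ≤
      Real.exp s * (Real.cosh b * Real.exp a + Real.cosh c) := by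
    rw [mul_add]; exact add_le_add h6 h7
  have h9 := Real.log_le_log hpos' h8
  rw [Real.log_mul (Real.exp_pos _).ne' hpos.ne', Real.log_exp] at h9
  linarith

lemma XB1_g {J : Type} (A : Arc J) (σ σ' : Bool) (q q' : J → ℝ) (s : ℝ) (hq : ∀ j, 0 < q j)
    (h1 : ∀ j, q j ≤ q' j) (h2 : ∀ j, q' j ≤ q j + s) :
    A.g σ σ' q' ≤ A.g σ σ' q + 2 * s := by
  cases A with
  | seam a b c =>
    have a1 := h1 a; have a2 := h2 a; have b1 := h1 b; have b2 := h2 b
    have c1 := h1 c; have c2 := h2 c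
    have s0 : 0 ≤ s := by linarith
    have la := XB1_ls (half_pos (hq a)) (by linarith : q a / 2 ≤ q' a / 2)
    have lb := XB1_ls (half_pos (hq b)) (by linarith : q b / 2 ≤ q' b / 2)
    have e1 : lc ((q' a + q' b + q' c) / 4) ≤ lc ((q a + q b + q c) / 4) + s :=
      XB1_lc' (by linarith) (by linarith)
    have e2 : lc ((q' a + q' b - q' c) / 4) ≤ lc ((q a + q b - q c) / 4) + s :=
      XB1_lc' (by linarith) (by linarith)
    have e3 : lc ((q' a - q' b + q' c) / 4) ≤ lc ((q a - q b + q c) / 4) + s :=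
      XB1_lc' (by linarith) (by linarith)
    have e4 : lc ((-q' a + q' b + q' c) / 4) ≤ lc ((-q a + q b + q c) / 4) + s :=
      XB1_lc' (by linarith) (by linarith)
    cases σ <;> cases σ' <;> simp only [Arc.g] <;> linarith
  | wave a b c =>
    have a1 := h1 a; have a2 := h2 a; have b1 := h1 b; have b2 := h2 b
    have c1 := h1 c; have c2 := h2 c
    have s0 : 0 ≤ s := by linarith
    have la := XB1_ls (half_pos (hq a)) (by linarith : q a / 2 ≤ q' a / 2)
    have e1 : lc ((q' a + q' b + q' c) / 4) ≤ lc ((q a + q b + q c) / 4) + s :=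
      XB1_lc' (by linarith) (by linarith)
    have e2 : lc ((q' a + q' b - q' c) / 4) ≤ lc ((q a + q b - q c) / 4) + s :=
      XB1_lc' (by linarith) (by linarith)
    have e3 : lc ((q' a - q' b + q' c) / 4) ≤ lc ((q a - q b + q c) / 4) + s :=
      XB1_lc' (by linarith) (by linarith)
    have e4 : lc ((-q' a + q' b + q' c) / 4) ≤ lc ((-q a + q b + q c) / 4) + s :=
      XB1_lc' (by linarith) (by linarith)
    have hb : |q' b / 2 - q b / 2| ≤ s / 2 := abs_le.2 ⟨by linarith, by linarith⟩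
    have hc : |q' c / 2 - q c / 2| ≤ s / 2 := abs_le.2 ⟨by linarith, by linarith⟩
    have w1 := XB1_wave s0 hb hc (by linarith : -(q' a / 2) ≤ -(q a / 2) + s / 2)
    have w2 := XB1_wave s0 hb hc (by linarith : q' a / 2 ≤ q a / 2 + s / 2)
    cases σ <;> cases σ' <;> simp only [Arc.g] <;> linarith

/-- constant of a word -/
noncomputable def XB1_C {J : Type} (w : Word J) : ℝ := ∑ i, (3 + |w.c i|)

lemma XB1_C_nonneg {J : Type} (w : Word J) : 0 ≤ XB1_C w :=
  Finset.sum_nonneg (fun i _ => by positivity)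

lemma XB1_L {J : Type} (w : Word J) (σ : Fin (w.n + 1) → Bool) (z z' : PS J) (s : ℝ)
    (hq : ∀ j, 0 < z.1 j) (h1 : ∀ j, z.1 j ≤ z'.1 j) (h2 : ∀ j, z'.1 j ≤ z.1 j + s)
    (h3 : ∀ j, |z'.2 j - z.2 j| ≤ s) :
    w.L σ z' ≤ w.L σ z + XB1_C w * s := by
  unfold Word.L XB1_C
  rw [Finset.sum_mul, ← Finset.sum_add_distrib]
  apply Finset.sum_le_sum
  intro i _
  have hg := XB1_g (w.A i) (σ i) (σ (i + 1)) z.1 z'.1 s hq h1 h2
  have ht : |w.t i z' - w.t i z| ≤ s + |w.c i| * s := by
    unfold Word.t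
    have e : z'.2 (w.j i) + w.c i * z'.1 (w.j i) - (z.2 (w.j i) + w.c i * z.1 (w.j i)) =
        (z'.2 (w.j i) - z.2 (w.j i)) + w.c i * (z'.1 (w.j i) - z.1 (w.j i)) := by ring
    rw [e]
    refine (abs_add_le _ _).trans (add_le_add (h3 _) ?_)
    rw [abs_mul]
    apply mul_le_mul_of_nonneg_left _ (abs_nonneg _)
    have k1 := h1 (w.j i)
    have k2 := h2 (w.j i)
    rw [abs_le]; constructor <;> linarith
  have hb : bs (σ i) * w.t i z' / 2 ≤ bs (σ i) * w.t i z / 2 + (s + |w.c i| * s) / 2 := by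
    have h4 := abs_le.1 ht
    unfold bs
    split_ifs <;> linarith [h4.1, h4.2]
  have s0 : 0 ≤ s := by have k1 := h1 (w.j i); have k2 := h2 (w.j i); linarith
  have : 0 ≤ |w.c i| * s := mul_nonneg (abs_nonneg _) s0
  nlinarith

lemma XB1_F {J : Type} (w : Word J) (z z' : PS J) (s : ℝ)
    (hq : ∀ j, 0 < z.1 j) (h1 : ∀ j, z.1 j ≤ z'.1 j) (h2 : ∀ j, z'.1 j ≤ z.1 j + s)
    (h3 : ∀ j, |z'.2 j - z.2 j| ≤ s) :
    w.F z' ≤ Real.exp (XB1_C w * s) * w.F z := by
  unfold Word.F
  rw [Finset.mul_sum]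
  apply Finset.sum_le_sum
  intro σ _
  unfold Word.W
  rw [← Real.exp_add]
  apply Real.exp_le_exp.2
  have := XB1_L w σ z z' s hq h1 h2 h3
  linarith

lemma XB1_H_le {J : Type} (w : Word J) (z : PS J) (hF : 2 < w.F z) :
    w.H z ≤ 2 * Real.log (w.F z) := by
  unfold Word.H
  have h0 : 0 ≤ Real.sqrt (w.F z ^ 2 - 4) := Real.sqrt_nonneg _
  have h1 : Real.sqrt (w.F z ^ 2 - 4) ≤ w.F z := by
    rw [Real.sqrt_le_left (by linarith)]
    linarith
  have h2 : Real.log ((w.F z + Real.sqrt (w.F z ^ 2 - 4)) / 2) ≤ Real.log (w.F z) :=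
    Real.log_le_log (by linarith) (by linarith)
  linarith

/-- tangent inequality along a ray -/
lemma XB1_ray {J : Type} [Fintype J] [DecidableEq J] (f : PS J → ℝ)
    (hf : ContDiffOn ℝ 2 f (Cone J)) (hh : ∀ z ∈ Cone J, ∀ x, 0 ≤ hs f z x x) (z e : PS J)
    (hz : ∀ s : ℝ, 0 ≤ s → z + s • e ∈ Cone J) (s : ℝ) (hs0 : 0 ≤ s) :
    f z + s * fderiv ℝ f z e ≤ f (z + s • e) := by
  have hline : ∀ s : ℝ, HasDerivAt (fun s : ℝ => z + s • e) e s := by
    intro s
    have := ((hasDerivAt_id s).smul_const e).const_add z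
    simpa using this
  have hcd : ∀ s : ℝ, 0 ≤ s → ContDiffAt ℝ 2 f (z + s • e) := fun s hs =>
    hf.contDiffAt (Cone_mem_nhds (hz s hs))
  have hd1 : ∀ s : ℝ, 0 ≤ s →
      HasDerivAt (fun s : ℝ => f (z + s • e)) (fderiv ℝ f (z + s • e) e) s := by
    intro s hs
    have h1 : HasFDerivAt f (fderiv ℝ f (z + s • e)) (z + s • e) :=
      ((hcd s hs).differentiableAt (by norm_num)).hasFDerivAt
    exact h1.comp_hasDerivAt s (hline s)
  have hd2 : ∀ s : ℝ, 0 ≤ s →
      HasDerivAt (fun s : ℝ => fderiv ℝ f (z + s • e) e) (hs f (z + s • e) e e) s := by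
    intro s hs
    have h1 : DifferentiableAt ℝ (fun u => fderiv ℝ f u) (z + s • e) :=
      (((hcd s hs).fderiv_right (m := 1) (by norm_num)).differentiableAt (by norm_num))
    have h2 := h1.hasFDerivAt.comp_hasDerivAt s (hline s)
    have h3 := h2.clm_apply (hasDerivAt_const s e)
    simpa [Pool.Agent.helper73.AD.hs] using h3
  have hmono : MonotoneOn (fun s : ℝ => fderiv ℝ f (z + s • e) e) (Set.Ici 0) := by
    apply monotoneOn_of_deriv_nonneg (convex_Ici 0)
    · intro s hs; exact (hd2 s hs).continuousAt.continuousWithinAt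
    · intro s hs
      rw [interior_Ici] at hs
      exact (hd2 s (le_of_lt hs)).differentiableAt.differentiableWithinAt
    · intro s hs
      rw [interior_Ici] at hs
      rw [(hd2 s (le_of_lt hs)).deriv]
      exact hh _ (hz s (le_of_lt hs)) e
  have hmono2 : MonotoneOn (fun s : ℝ => f (z + s • e) - s * fderiv ℝ f z e) (Set.Ici 0) := by
    have hd3 : ∀ s : ℝ, 0 ≤ s → HasDerivAt (fun s : ℝ => f (z + s • e) - s * fderiv ℝ f z e)
        (fderiv ℝ f (z + s • e) e - 1 * fderiv ℝ f z e) s := by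
      intro s hs
      exact (hd1 s hs).sub ((hasDerivAt_id s).mul_const _)
    apply monotoneOn_of_deriv_nonneg (convex_Ici 0)
    · intro s hs; exact (hd3 s hs).continuousAt.continuousWithinAt
    · intro s hs
      rw [interior_Ici] at hs
      exact (hd3 s (le_of_lt hs)).differentiableAt.differentiableWithinAt
    · intro s hs
      rw [interior_Ici] at hs
      rw [(hd3 s (le_of_lt hs)).deriv]
      have := hmono (Set.mem_Ici.2 le_rfl) (Set.mem_Ici.2 (le_of_lt hs)) (le_of_lt hs)
      simp only [zero_smul, add_zero] at this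
      linarith
  have := hmono2 (Set.mem_Ici.2 le_rfl) (Set.mem_Ici.2 hs0) hs0
  simp only [zero_smul, add_zero, zero_mul, sub_zero] at this
  linarith

/-- slope bound in one direction -/
lemma XB1_dir (hKD : KD_stmt) (hGS : GS_stmt) (hBF : BF_stmt) {J : Type} [Fintype J]
    [DecidableEq J] (w : Word J) (z e : PS J) (hz : z ∈ Cone J)
    (h1 : ∀ j, 0 ≤ e.1 j) (h2 : ∀ j, e.1 j ≤ 1) (h3 : ∀ j, |e.2 j| ≤ 1) :
    fderiv ℝ w.H z e ≤ 2 * XB1_C w := by
  have hmem : ∀ s : ℝ, 0 ≤ s → z + s • e ∈ Cone J := by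
    intro s hs j
    have := hz j
    have := mul_nonneg hs (h1 j)
    simp only [Prod.fst_add, Prod.smul_fst, Pi.add_apply, Pi.smul_apply, smul_eq_mul]
    linarith
  have hsm : ContDiffOn ℝ 2 w.H (Cone J) :=
    (hGS J).2.2.2.2 w (fun z hz => (hBF J w z hz).1)
  have key : ∀ s : ℝ, 0 ≤ s → w.H z + s * fderiv ℝ w.H z e ≤
      2 * Real.log (w.F z) + 2 * (XB1_C w * s) := by
    intro s hs
    have k1 := XB1_ray w.H hsm (fun z hz x => (hKD J w z hz x).1) z e hmem s hs
    have k2 := XB1_H_le w (z + s • e) (hBF J w _ (hmem s hs)).1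
    have k3 := XB1_F w z (z + s • e) s hz
      (fun j => by
        have := mul_nonneg hs (h1 j)
        simp only [Prod.fst_add, Prod.smul_fst, Pi.add_apply, Pi.smul_apply, smul_eq_mul]
        linarith)
      (fun j => by
        have := mul_le_mul_of_nonneg_left (h2 j) hs
        simp only [Prod.fst_add, Prod.smul_fst, Pi.add_apply, Pi.smul_apply, smul_eq_mul]
        linarith)
      (fun j => by
        simp only [Prod.snd_add, Prod.smul_snd, Pi.add_apply, Pi.smul_apply, smul_eq_mul,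
          add_sub_cancel_left]
        rw [abs_mul, abs_of_nonneg hs]
        have := mul_le_mul_of_nonneg_left (h3 j) hs
        linarith)
    have hF : 2 < w.F z := (hBF J w z hz).1
    have k4 := Real.log_le_log (by linarith [(hBF J w _ (hmem s hs)).1]) k3
    rw [Real.log_mul (Real.exp_pos _).ne' (by linarith : w.F z ≠ 0), Real.log_exp] at k4
    linarith
  by_contra hcon
  push Not at hcon
  set D := fderiv ℝ w.H z e - 2 * XB1_C w with hD
  have hDpos : 0 < D := by rw [hD]; linarith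
  set M := 2 * Real.log (w.F z) - w.H z with hM
  have hM0 : 0 ≤ M := by
    have := key 0 le_rfl
    rw [hM]; linarith
  have := key (M / D + 1) (by positivity)
  have e1 : (M / D + 1) * D = M + D := by field_simp
  nlinarith

theorem XB1 (hKD : KD_stmt) (hGS : GS_stmt) (hBF : BF_stmt) : XB1_stmt := by
  intro J _ _ w
  refine ⟨2 * XB1_C w, by have := XB1_C_nonneg w; linarith, ?_⟩
  intro z hz j
  have hs1 : ∀ k, |(Pi.single j (1 : ℝ) : J → ℝ) k| ≤ 1 := by
    intro k
    by_cases h : k = j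
    · subst h; simp
    · simp [Pi.single_apply, h]
  refine ⟨?_, ?_⟩
  · rw [abs_le]
    constructor
    · have := XB1_dir hKD hGS hBF w z (-(0, Pi.single j 1)) hz (fun k => by simp)
        (fun k => by simp) (fun k => by simpa using hs1 k)
      rw [map_neg] at this
      linarith
    · exact XB1_dir hKD hGS hBF w z (0, Pi.single j 1) hz (fun k => by simp)
        (fun k => by simp) (fun k => by simpa using hs1 k)
  · refine XB1_dir hKD hGS hBF w z (Pi.single j 1, 0) hz (fun k => ?_) (fun k => ?_)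
      (fun k => by simp)
    · by_cases h : k = j
      · subst h; simp
      · simp [Pi.single_apply, h]
    · exact (le_abs_self _).trans (hs1 k)

end AdSBend
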