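import Pool.Agent.helper69.AD.GS6
import Pool.Agent.helper73.AD.Basic

set_option autoImplicit false

open scoped MatrixGroups LinearAlgebra.Projectivization
open Matrix UpperHalfPlane
open Pool.Agent.helper73.AD (PS Arc Word sg AData Family PreFamily Cone bs lc ls hs QB_stmt
  BF_stmt isOpen_Cone Cone_mem_nhds convex_Cone)

namespace AdSBend

lemma XB2_lc (x : ℝ) : 0 ≤ lc x := Real.log_nonneg (Real.one_le_cosh x)

lemma XB2_ls {x y : ℝ} (hx : 0 < x) (hxy : x ≤ y) : ls x ≤ |ls y| := by
  refine le_trans ?_ (le_abs_self _)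
  unfold ls
  exact Real.log_le_log (Real.sinh_pos_iff.2 hx) (Real.sinh_le_sinh.2 hxy)

lemma XB2_g {J : Type} (A : Arc J) (σ σ' : Bool) (q : J → ℝ) (B : ℝ) (hq : ∀ j, 0 < q j)
    (hB : ∀ j, q j ≤ B) : -|ls (B / 2)| ≤ A.g σ σ' q := by
  cases A with
  | seam a b c =>
    have la := XB2_ls (half_pos (hq a)) (by linarith [hB a] : q a / 2 ≤ B / 2)
    have lb := XB2_ls (half_pos (hq b)) (by linarith [hB b] : q b / 2 ≤ B / 2)
    have e1 := XB2_lc ((q a + q b + q c) / 4)
    have e2 := XB2_lc ((q a + q b - q c) / 4)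
    have e3 := XB2_lc ((q a - q b + q c) / 4)
    have e4 := XB2_lc ((-q a + q b + q c) / 4)
    cases σ <;> cases σ' <;> simp only [Arc.g] <;> linarith
  | wave a b c =>
    have la := XB2_ls (half_pos (hq a)) (by linarith [hB a] : q a / 2 ≤ B / 2)
    have e1 := XB2_lc ((q a + q b + q c) / 4)
    have e2 := XB2_lc ((q a + q b - q c) / 4)
    have e3 := XB2_lc ((q a - q b + q c) / 4)
    have e4 := XB2_lc ((-q a + q b + q c) / 4)
    have e5 : 0 < Real.log 2 := Real.log_pos one_lt_two
    have e6 : 0 ≤ Real.log (Real.cosh (q b / 2) * Real.exp (-(q a / 2)) + Real.cosh (q c / 2)) := by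
      apply Real.log_nonneg
      have := Real.one_le_cosh (q c / 2)
      have := mul_pos (Real.cosh_pos (q b / 2)) (Real.exp_pos (-(q a / 2)))
      linarith
    have e7 : 0 ≤ Real.log (Real.cosh (q b / 2) * Real.exp (q a / 2) + Real.cosh (q c / 2)) := by
      apply Real.log_nonneg
      have := Real.one_le_cosh (q c / 2)
      have := mul_pos (Real.cosh_pos (q b / 2)) (Real.exp_pos (q a / 2))
      linarith
    cases σ <;> cases σ' <;> simp only [Arc.g] <;> linarith

theorem XB2 (hQB : QB_stmt) (hBF : BF_stmt) : XB2_stmt := by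
  intro J _ _ w R B
  set M : ℝ := Real.log (2 * Real.cosh (R / 2)) + (w.n + 1) * |ls (B / 2)| with hM
  refine ⟨1 / Real.cosh (R / 2) ^ 2, 2 * M + (∑ i, |w.c i|) * |B|, ?_, ?_⟩
  · have := Real.cosh_pos (R / 2)
    positivity
  · intro z hz hR hB i
    obtain ⟨_, hH, hF, _⟩ := hBF J w z hz
    have hcosh : Real.cosh (w.H z / 2) ≤ Real.cosh (R / 2) := by
      rw [Real.cosh_le_cosh, abs_of_pos (by linarith), abs_of_pos (by linarith)]
      linarith
    refine ⟨?_, ?_⟩
    · refine le_trans ?_ (hQB J w z hz i)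
      have := Real.cosh_pos (w.H z / 2)
      apply one_div_le_one_div_of_le (by positivity)
      gcongr
    · set σ : Fin (w.n + 1) → Bool := fun i => decide (0 ≤ w.t i z) with hσ
      have hbs : ∀ i, bs (σ i) * w.t i z / 2 = |w.t i z| / 2 := by
        intro i
        by_cases h : 0 ≤ w.t i z
        · simp [hσ, bs, h, abs_of_nonneg h]
        · push Not at h
          have h' : ¬ (0 ≤ w.t i z) := by linarith
          simp [hσ, bs, h', abs_of_neg h]
      have hL : (∑ i, |w.t i z|) / 2 - (w.n + 1) * |ls (B / 2)| ≤ w.L σ z := by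
        unfold Word.L
        have : (∑ i, |w.t i z|) / 2 - (w.n + 1) * |ls (B / 2)| =
            ∑ i : Fin (w.n + 1), (|w.t i z| / 2 + -|ls (B / 2)|) := by
          rw [Finset.sum_add_distrib, Finset.sum_div, Finset.sum_const, Finset.card_univ,
            Fintype.card_fin, nsmul_eq_mul]
          push_cast
          ring
        rw [this]
        apply Finset.sum_le_sum
        intro i _
        rw [hbs i]
        have := XB2_g (w.A i) (σ i) (σ (i + 1)) z.1 B hz hB
        linarith
      have hW : w.W σ z ≤ w.F z := by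
        unfold Word.F
        exact Finset.single_le_sum (f := fun σ => w.W σ z) (fun σ _ => (Real.exp_pos _).le)
          (Finset.mem_univ σ)
      have hlog : w.L σ z ≤ Real.log (2 * Real.cosh (R / 2)) := by
        have h1 : Real.exp (w.L σ z) ≤ 2 * Real.cosh (R / 2) := by
          have : Real.exp (w.L σ z) = w.W σ z := rfl
          rw [this]
          linarith
        have h2 := Real.log_le_log (Real.exp_pos _) h1
        rwa [Real.log_exp] at h2
      have hsum : ∑ i, |w.t i z| ≤ 2 * M := by rw [hM]; linarith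
      have hti : |w.t i z| ≤ 2 * M :=
        (Finset.single_le_sum (f := fun i => |w.t i z|) (fun i _ => abs_nonneg _)
          (Finset.mem_univ i)).trans hsum
      have hci : |w.c i| ≤ ∑ i, |w.c i| :=
        Finset.single_le_sum (f := fun i => |w.c i|) (fun i _ => abs_nonneg _)
          (Finset.mem_univ i)
      have hq : |z.1 (w.j i)| ≤ |B| := by
        have h1 := hz (w.j i)
        have h2 := hB (w.j i)
        rw [abs_of_pos h1]
        exact h2.trans (le_abs_self _)
      have e : z.2 (w.j i) = w.t i z - w.c i * z.1 (w.j i) := by unfold Word.t; ring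
      rw [e]
      refine (abs_sub _ _).trans ?_
      rw [abs_mul]
      exact add_le_add hti (mul_le_mul hci hq (abs_nonneg _)
        (Finset.sum_nonneg (fun i _ => abs_nonneg _)))

end AdSBend
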