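import Pool.Agent.helper69.AD.GS6
import Pool.Agent.helper73.AD.Basic

set_option autoImplicit false

open scoped MatrixGroups LinearAlgebra.Projectivization
open Matrix UpperHalfPlane
open Pool.Agent.helper73.AD (PS Arc Word sg AData Family PreFamily Cone bs lc ls hs KD_stmt GS_stmt
  BF_stmt isOpen_Cone Cone_mem_nhds convex_Cone)

namespace AdSBend

/-- tangent inequality along a segment -/
lemma XB3_seg {J : Type} [Fintype J] [DecidableEq J] (f : PS J → ℝ)
    (hf : ContDiffOn ℝ 2 f (Cone J)) (hh : ∀ z ∈ Cone J, ∀ x, 0 ≤ hs f z x x) (z u : PS J)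
    (hz : z ∈ Cone J) (hu : u ∈ Cone J) :
    f z + fderiv ℝ f z (u - z) ≤ f u := by
  set e := u - z with he
  have hmem : ∀ s ∈ Set.Icc (0 : ℝ) 1, z + s • e ∈ Cone J := by
    intro s hs
    exact convex_Cone.add_smul_sub_mem hz hu hs
  have hline : ∀ s : ℝ, HasDerivAt (fun s : ℝ => z + s • e) e s := by
    intro s
    have := ((hasDerivAt_id s).smul_const e).const_add z
    simpa using this
  have hcd : ∀ s ∈ Set.Icc (0 : ℝ) 1, ContDiffAt ℝ 2 f (z + s • e) := fun s hs =>
    hf.contDiffAt (Cone_mem_nhds (hmem s hs))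
  have hd1 : ∀ s ∈ Set.Icc (0 : ℝ) 1,
      HasDerivAt (fun s : ℝ => f (z + s • e)) (fderiv ℝ f (z + s • e) e) s := by
    intro s hs
    have h1 : HasFDerivAt f (fderiv ℝ f (z + s • e)) (z + s • e) :=
      ((hcd s hs).differentiableAt (by norm_num)).hasFDerivAt
    exact h1.comp_hasDerivAt s (hline s)
  have hd2 : ∀ s ∈ Set.Icc (0 : ℝ) 1,
      HasDerivAt (fun s : ℝ => fderiv ℝ f (z + s • e) e) (hs f (z + s • e) e e) s := by
    intro s hs
    have h1 : DifferentiableAt ℝ (fun u => fderiv ℝ f u) (z + s • e) :=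
      (((hcd s hs).fderiv_right (m := 1) (by norm_num)).differentiableAt (by norm_num))
    have h2 := h1.hasFDerivAt.comp_hasDerivAt s (hline s)
    have h3 := h2.clm_apply (hasDerivAt_const s e)
    simpa [Pool.Agent.helper73.AD.hs] using h3
  have hsub : ∀ s ∈ interior (Set.Icc (0 : ℝ) 1), s ∈ Set.Icc (0 : ℝ) 1 :=
    fun s hs => interior_subset hs
  have hmono : MonotoneOn (fun s : ℝ => fderiv ℝ f (z + s • e) e) (Set.Icc 0 1) := by
    apply monotoneOn_of_deriv_nonneg (convex_Icc 0 1)
    · intro s hs; exact (hd2 s hs).continuousAt.continuousWithinAt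
    · intro s hs
      exact (hd2 s (hsub s hs)).differentiableAt.differentiableWithinAt
    · intro s hs
      rw [(hd2 s (hsub s hs)).deriv]
      exact hh _ (hmem s (hsub s hs)) e
  have hmono2 : MonotoneOn (fun s : ℝ => f (z + s • e) - s * fderiv ℝ f z e) (Set.Icc 0 1) := by
    have hd3 : ∀ s ∈ Set.Icc (0 : ℝ) 1,
        HasDerivAt (fun s : ℝ => f (z + s • e) - s * fderiv ℝ f z e)
        (fderiv ℝ f (z + s • e) e - 1 * fderiv ℝ f z e) s := by
      intro s hs
      exact (hd1 s hs).sub ((hasDerivAt_id s).mul_const _)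
    apply monotoneOn_of_deriv_nonneg (convex_Icc 0 1)
    · intro s hs; exact (hd3 s hs).continuousAt.continuousWithinAt
    · intro s hs
      exact (hd3 s (hsub s hs)).differentiableAt.differentiableWithinAt
    · intro s hs
      have hs' := hsub s hs
      rw [(hd3 s hs').deriv]
      have := hmono (Set.left_mem_Icc.2 zero_le_one) hs' hs'.1
      simp only [zero_smul, add_zero] at this
      linarith
  have := hmono2 (Set.left_mem_Icc.2 zero_le_one) (Set.right_mem_Icc.2 zero_le_one) zero_le_one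
  simp only [zero_smul, add_zero, zero_mul, sub_zero, one_smul, one_mul] at this
  have e1 : z + e = u := by rw [he]; abel
  rw [e1] at this
  linarith

lemma XB3_convex {J : Type} [Fintype J] [DecidableEq J] (f : PS J → ℝ)
    (hf : ContDiffOn ℝ 2 f (Cone J)) (hh : ∀ z ∈ Cone J, ∀ x, 0 ≤ hs f z x x) :
    ConvexOn ℝ (Cone J) f := by
  refine ⟨convex_Cone, ?_⟩
  intro x hx y hy a b ha hb hab
  have hm : a • x + b • y ∈ Cone J := convex_Cone hx hy ha hb hab
  have h1 := XB3_seg f hf hh _ x hm hx
  have h2 := XB3_seg f hf hh _ y hm hy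
  set m := a • x + b • y with hmdef
  have h3 : a * fderiv ℝ f m (x - m) + b * fderiv ℝ f m (y - m) = 0 := by
    have e : a • (x - m) + b • (y - m) = 0 := by
      have : a • (x - m) + b • (y - m) = (a • x + b • y) - (a + b) • m := by
        rw [smul_sub, smul_sub, add_smul]; abel
      rw [this, hab, one_smul, hmdef, sub_self]
    have := congrArg (fderiv ℝ f m) e
    rw [map_add, map_smul, map_smul, map_zero] at this
    simpa using this
  have h4 := mul_le_mul_of_nonneg_left h1 ha
  have h5 := mul_le_mul_of_nonneg_left h2 hb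
  simp only [smul_eq_mul]
  have h6 : a * f m + b * f m = f m := by rw [← add_mul, hab, one_mul]
  nlinarith

theorem XB3 (hKD : KD_stmt) (hGS : GS_stmt) (hBF : BF_stmt) : XB3_stmt := by
  intro J K _ _ _ _ w b hb
  have hsm : ∀ k, ContDiffOn ℝ 2 (w k).H (Cone J) :=
    fun k => (hGS J).2.2.2.2 (w k) (fun z hz => (hBF J (w k) z hz).1)
  have hcv : ∀ k, ConvexOn ℝ (Cone J) (w k).H :=
    fun k => XB3_convex _ (hsm k) (fun z hz x => (hKD J (w k) z hz x).1)
  refine ⟨?_, ?_, ?_⟩
  · exact ContDiffOn.sum (fun k _ => contDiffOn_const.mul (hsm k))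
  · refine ⟨convex_Cone, ?_⟩
    intro x hx y hy s t hs ht hst
    simp only [smul_eq_mul]
    rw [Finset.mul_sum, Finset.mul_sum, ← Finset.sum_add_distrib]
    apply Finset.sum_le_sum
    intro k _
    have := (hcv k).2 hx hy hs ht hst
    simp only [smul_eq_mul] at this
    have := mul_le_mul_of_nonneg_left this (hb k)
    linarith
  · intro z hz
    refine ⟨fun k => (hBF J (w k) z hz).2.1, ?_⟩
    have hd : ∀ k, DifferentiableAt ℝ (w k).H z := fun k =>
      ((hsm k).contDiffAt (Cone_mem_nhds hz)).differentiableAt (by norm_num)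
    have h : HasFDerivAt (fun z => ∑ k, b k * (w k).H z) (∑ k, b k • fderiv ℝ (w k).H z) z := by
      apply HasFDerivAt.fun_sum
      intro k _
      exact (hd k).hasFDerivAt.const_mul (b k)
    exact h.fderiv

end AdSBend
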